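import Mathlib
import Pool.Agent.Helper34.LF.St

set_option autoImplicit false

open Finset Pool.Agent.Helper34.LF

namespace Pool.Agent.Helper39.LF

theorem w_exists : ∀ k c : Fin 4, k ≠ c → ∀ s t : ZMod 2, ∃ w : Fin 4 → ZMod 2,
    w (k + 1) = s ∧ w (k + 2) = t ∧ off k w = 0 ∧ w k ≠ w c := by
  unfold off
  decide

theorem two_zero (z : Fin 4 → ZMod 2) : z + z = 0 := by
  funext i
  exact CharTwo.add_self_eq_zero (z i)

theorem core {N : ℕ} (X : Finset (VA N)) (y : VB N) (p p' c : VA N) (h1 : p ≠ p') (h2 : p ≠ c)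
    (h3 : p' ≠ c) (hX : X = {p, p', c}) (hk : p.1 = p'.1) (hc : p.1 ≠ c.1) :
    ∃ b, b ∉ ({y} : Finset (VB N)) ∧ KP X (insert b {y}) := by
  obtain ⟨w, w1, w2, w3, w4⟩ := w_exists p.1 c.1 hc (p.2.1 + p'.2.1).1 (p.2.1 + p'.2.1).2
  have hw : w + y.1 + y.1 = w := by rw [add_assoc, two_zero, add_zero]
  have hne : ((w + y.1, -(p.2.2 + p'.2.2) - y.2) : VB N) ≠ y := by
    intro h
    have h5 : w + y.1 = y.1 := congrArg Prod.fst h
    have h6 : w = 0 := by rw [← hw, h5, two_zero]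
    exact w4 (by rw [h6]; rfl)
  refine ⟨(w + y.1, -(p.2.2 + p'.2.2) - y.2), by simpa using hne, ?_⟩
  refine Or.inr (Or.inr ⟨p, p', c, (w + y.1, -(p.2.2 + p'.2.2) - y.2), y, h1, h2, h3, hne, hX,
    rfl, ⟨hk, ?_, ?_⟩, ?_⟩)
  · simp only [hw]
    exact w3
  · simp only [hw]
    refine Prod.ext ?_ ?_
    · refine Prod.ext ?_ ?_
      · exact w1.symm
      · exact w2.symm
    · change p.2.2 + p'.2.2 = -(-(p.2.2 + p'.2.2) - y.2 + y.2)
      ring
  · simp only [hw]
    exact w4

theorem blk {N : ℕ} (X : Finset (VA N)) (hX : X.card = 3) (hn : ¬ ∃ a ∈ X, ∑ x ∈ X, x.2 = -a.2)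
    (k : Fin 4) (hk : (insert k (X.image Prod.fst)).card = 4 ∨
      (insert k (X.image Prod.fst)).card = 1) : ∃ a, a ∉ X ∧ Blk (insert a X) := by
  have ha : ((k, -∑ x ∈ X, x.2) : VA N) ∉ X := fun h => hn ⟨_, h, by simp⟩
  refine ⟨(k, -∑ x ∈ X, x.2), ha, ?_, ?_, ?_⟩
  · rw [card_insert_of_notMem ha, hX]
  · rw [image_insert]
    exact hk
  · rw [sum_insert ha]
    simp

theorem pCV31 : StCV31 := by
  intro N _ X Y hX hY hn
  obtain ⟨y, rfl⟩ := card_eq_one.1 hY
  obtain ⟨x1, x2, x3, h12, h13, h23, hXe⟩ := card_eq_three.1 hX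
  by_cases e12 : x1.1 = x2.1
  · by_cases e13 : x1.1 = x3.1
    · obtain ⟨a, ha, hb⟩ := blk X hX hn x1.1 (by
        right
        rw [hXe]
        simp [← e12, ← e13])
      exact Or.inl ⟨a, ha, Or.inl ⟨hb, by simp⟩⟩
    · exact Or.inr (core X y x1 x2 x3 h12 h13 h23 hXe e12 e13)
  · by_cases e13 : x1.1 = x3.1
    · exact Or.inr (core X y x1 x3 x2 h13 h12 h23.symm (by
        rw [hXe]
        ext z
        simp only [mem_insert, mem_singleton]
        tauto) e13 e12)
    · by_cases e23 : x2.1 = x3.1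
      · exact Or.inr (core X y x2 x3 x1 h23 h12.symm h13.symm (by
          rw [hXe]
          ext z
          simp only [mem_insert, mem_singleton]
          tauto) e23 (fun h => e12 h.symm))
      · have hc : (X.image Prod.fst).card = 3 := by
          rw [hXe, image_insert, image_insert, image_singleton]
          exact card_eq_three.2 ⟨x1.1, x2.1, x3.1, e12, e13, e23, rfl⟩
        obtain ⟨k, hk⟩ : ∃ k, k ∉ X.image Prod.fst := by
          by_contra h
          push Not at h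
          have := (eq_univ_iff_forall.2 h)
          rw [this] at hc
          simp at hc
        obtain ⟨a, ha, hb⟩ := blk X hX hn k (by
          left
          rw [card_insert_of_notMem hk, hc])
        exact Or.inl ⟨a, ha, Or.inl ⟨hb, by simp⟩⟩

end Pool.Agent.Helper39.LF
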